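import Pool.Agent.X223.EE.Vert

set_option autoImplicit false

namespace Pool.Agent.X223.EE

open MeasureTheory

instance : Infinite (Om Vx) := Set.infinite_univ_iff.1 ((D_infinite (Set.univ : Set Vx)).mono
  (Set.subset_univ _))

/-- An enumeration of the points. -/
noncomputable def en : ℕ ≃ Om Vx := (nonempty_equiv_of_countable (α := ℕ) (β := Om Vx)).some

theorem meas_TT {C : Set (Ca × Ca × (ℕ → ℕ))} (n : ℕ) (a : Ca) (c : ℕ → ℕ) :
    MeasurableSet {b : Ca | TT C n a b c} := by
  have h1 : Measurable (fun (b : Ca) (i : Fin n) => b i) :=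
    measurable_pi_lambda _ fun i => measurable_pi_apply _
  have h2 : {b : Ca | TT C n a b c} = (fun (b : Ca) (i : Fin n) => b i) ⁻¹'
      {w : Fin n → Bool | TT C n a (fun i => if h : i < n then w ⟨i, h⟩ else false) c} := by
    ext b
    have h3 : ag n b (fun i => if h : i < n then (fun (i : Fin n) => b i) ⟨i, h⟩ else false) := by
      intro i hi
      beta_reduce
      rw [dif_pos hi]
    exact ⟨fun h => h.congr (ag.refl _ _) h3 (ag.refl _ _),
      fun h => h.congr (ag.refl _ _) h3.symm (ag.refl _ _)⟩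
  rw [h2]
  exact h1 (Set.toFinite _).measurableSet

variable {X : Type} [MeasurableSpace X] {C : Set (Ca × Ca × (ℕ → ℕ))} {e : X → Ca}

theorem meas_Vs (he : Measurable e) (v : Vx) : MeasurableSet {x | v ∈ Vs C (e x)} := by
  obtain (s | ⟨v, s⟩) := v
  · exact MeasurableSet.univ
  · have h1 : {x | Vx.wit v s ∈ Vs C (e x)} =
        {x | v.length = s.length} ∩ e ⁻¹' {b : Ca | TT C s.length (bq v) b (sq s)} := by
      ext x
      exact wit_mem C (e x) v s
    rw [h1]
    exact (MeasurableSet.const _).inter (he (meas_TT _ _ _))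

variable (C e) in
/-- Codes of the points of the structure of `x`. -/
def PP (x : X) (m : ℕ) : Prop := en m ∈ D (Vs C (e x))

theorem meas_PP (he : Measurable e) (m : ℕ) : MeasurableSet {x | PP C e x m} :=
  meas_D (fun x => Vs C (e x)) (meas_Vs he) (en m)

theorem PP_inf (x : X) : (setOf (PP C e x)).Infinite := by
  have h1 : setOf (PP C e x) = en ⁻¹' (D (Vs C (e x))) := rfl
  rw [h1]
  exact (D_infinite _).preimage (by rw [en.surjective.range_eq]; exact Set.subset_univ _)

variable (C e) in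
/-- Pairs of a point and an enumeration of its structure. -/
def ZZ : Set (X × (ℕ → ℕ)) := {p | Function.Injective p.2 ∧ ∀ m, (∃ n, p.2 n = m) ↔ PP C e p.1 m}

theorem ZZ_range {p : X × (ℕ → ℕ)} (hp : p ∈ ZZ C e) :
    Set.range (fun n => en (p.2 n)) = D (Vs C (e p.1)) := by
  ext w
  obtain ⟨m, rfl⟩ := en.surjective w
  constructor
  · rintro ⟨n, hn⟩
    exact (hp.2 m).1 ⟨n, en.injective hn⟩
  · intro h
    obtain ⟨n, hn⟩ := (hp.2 m).2 h
    exact ⟨n, congrArg en hn⟩

theorem ZZ_inj {p : X × (ℕ → ℕ)} (hp : p ∈ ZZ C e) :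
    Function.Injective (fun n => en (p.2 n)) := en.injective.comp hp.1

theorem meas_ZZ (he : Measurable e) : MeasurableSet (ZZ C e) := by
  have h0 : ∀ n, Measurable (fun p : X × (ℕ → ℕ) => p.2 n) := fun n =>
    (measurable_pi_apply n).comp measurable_snd
  have h1 : ZZ C e = (⋂ (m : ℕ) (n : ℕ), {p : X × (ℕ → ℕ) | p.2 m = p.2 n → m = n}) ∩
      ⋂ m, {p : X × (ℕ → ℕ) | (∃ n, p.2 n = m) ↔ PP C e p.1 m} := by
    ext p
    simp only [ZZ, Set.mem_inter_iff, Set.mem_iInter]
    exact and_congr ⟨fun h m n hh => h hh, fun h m n hh => h m n hh⟩ Iff.rfl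
  rw [h1]
  refine (MeasurableSet.iInter fun m => MeasurableSet.iInter fun n => ?_).inter
    (MeasurableSet.iInter fun m => ?_)
  · by_cases hmn : m = n
    · have : {p : X × (ℕ → ℕ) | p.2 m = p.2 n → m = n} = Set.univ := by
        ext p
        exact ⟨fun _ => trivial, fun _ _ => hmn⟩
      rw [this]
      exact MeasurableSet.univ
    · have : {p : X × (ℕ → ℕ) | p.2 m = p.2 n → m = n} = {p | p.2 m = p.2 n}ᶜ := by
        ext p
        exact ⟨fun h hh => hmn (h hh), fun h hh => absurd hh h⟩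
      rw [this]
      exact (measurableSet_eq_fun (h0 m) (h0 n)).compl
  · refine MeasurableSet.iff ?_ ?_
    · have : {p : X × (ℕ → ℕ) | ∃ n, p.2 n = m} = ⋃ n, (fun p : X × (ℕ → ℕ) => p.2 n) ⁻¹' {m} := by
        ext p
        rw [Set.mem_iUnion]
        exact Iff.rfl
      rw [this]
      exact MeasurableSet.iUnion fun n => h0 n (measurableSet_singleton m)
    · exact measurable_fst (meas_PP he m)

/-- The structure of an enumeration. -/
noncomputable def FZ (p : X × (ℕ → ℕ)) : St ar := FF AV lab (fun n => en (p.2 n))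

theorem meas_FZ : Measurable (FZ (X := X)) := by
  have h0 : ∀ n, Measurable (fun p : X × (ℕ → ℕ) => p.2 n) := fun n =>
    (measurable_pi_apply n).comp measurable_snd
  refine measurable_pi_lambda _ fun i => measurable_pi_lambda _ fun v => ?_
  cases i with
  | zero =>
    classical
    exact (measurable_of_countable (fun q : ℕ × ℕ => decide (adj AV (en q.1) (en q.2)))).comp
      ((h0 (v (0 : Fin 2))).prodMk (h0 (v (1 : Fin 2))))
  | succ j =>
    exact (measurable_of_countable (fun q : ℕ => col lab j (en q))).comp (h0 (v (0 : Fin 1)))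

theorem FZ_inj (he : Function.Injective e) : Set.InjOn (FZ (X := X)) (ZZ C e) := by
  rintro ⟨x, s⟩ hp ⟨y, t⟩ hq h
  obtain ⟨h1, h2⟩ := FF_inj (ZZ_inj hp) (ZZ_inj hq) (ZZ_range hp) (ZZ_range hq) h
  have h3 : s = t := by
    funext n
    exact en.injective (congrFun h2 n)
  have h4 : x = y := he h1
  rw [h4, h3]

theorem meas_nth (he : Measurable e) (n : ℕ) :
    Measurable (fun x : X => Nat.nth (PP C e x) n) := by
  classical
  have h1 : ∀ m, Measurable (fun x : X => Nat.count (PP C e x) m) := by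
    intro m
    induction m with
    | zero =>
      simp only [Nat.count_zero]
      exact measurable_const
    | succ m ih =>
      simp only [Nat.count_succ]
      exact ih.add (Measurable.ite (meas_PP he m) measurable_const measurable_const)
  refine measurable_to_countable' fun m => ?_
  have h2 : (fun x : X => Nat.nth (PP C e x) n) ⁻¹' {m} =
      {x | PP C e x m} ∩ (fun x : X => Nat.count (PP C e x) m) ⁻¹' {n} := by
    ext x
    constructor
    · intro h
      have h3 : Nat.nth (PP C e x) n = m := h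
      refine ⟨?_, ?_⟩
      · rw [← h3]
        exact Nat.nth_mem_of_infinite (PP_inf x) n
      · change Nat.count (PP C e x) m = n
        rw [← h3]
        exact Nat.count_nth_of_infinite (PP_inf x) n
    · rintro ⟨h3, h4⟩
      change Nat.nth (PP C e x) n = m
      have h5 : Nat.count (PP C e x) m = n := h4
      rw [← h5]
      exact Nat.nth_count h3
  rw [h2]
  exact (meas_PP he m).inter (h1 m (measurableSet_singleton n))

theorem nth_mem (x : X) : (x, fun n => Nat.nth (PP C e x) n) ∈ ZZ C e := by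
  refine ⟨Nat.nth_injective (PP_inf x), fun m => ?_⟩
  have := Nat.range_nth_of_infinite (PP_inf (C := C) (e := e) x)
  change m ∈ Set.range (Nat.nth (PP C e x)) ↔ _
  rw [this]
  exact Iff.rfl

/-- Reduction to a closed set. -/
theorem exists_closed (X : Type) [TopologicalSpace X] [PolishSpace X] [MeasurableSpace X]
    [BorelSpace X] (R : X → X → Prop) (hrefl : ∀ x, R x x)
    (htr : ∀ x y z, R x y → R y z → R x z)
    (hA : MeasureTheory.AnalyticSet {p : X × X | R p.1 p.2}) :
    ∃ (e : X → Ca) (C : Set (Ca × Ca × (ℕ → ℕ))), Measurable e ∧ Function.Injective e ∧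
      IsClosed C ∧ ∀ x y, R x y ↔ ∃ z : ℕ → ℕ, ∀ n, TT C n (e x) (e y) z := by
  obtain ⟨e, he, hinj⟩ := MeasurableSpace.measurable_injection_nat_bool_of_countablySeparated X
  have h1 : MeasureTheory.AnalyticSet
      ((fun p : X × X => (e p.1, e p.2)) '' {p : X × X | R p.1 p.2}) := by
    rw [MeasureTheory.AnalyticSet] at hA
    rcases hA with hA | ⟨g, hg, hr⟩
    · rw [hA, Set.image_empty]
      exact MeasureTheory.analyticSet_empty
    · rw [← hr, ← Set.range_comp, ← Set.image_univ]
      refine MeasurableSet.univ.analyticSet_image ?_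
      exact ((he.comp measurable_fst).prodMk (he.comp measurable_snd)).comp hg.measurable
  obtain ⟨C, hC, hCR⟩ : ∃ C : Set (Ca × Ca × (ℕ → ℕ)), IsClosed C ∧ ∀ a b,
      (∃ c, (a, b, c) ∈ C) ↔ ∃ x y, e x = a ∧ e y = b ∧ R x y := by
    rw [MeasureTheory.AnalyticSet] at h1
    rcases h1 with h1 | ⟨g, hg, hr⟩
    · refine ⟨∅, isClosed_empty, fun a b => ⟨fun ⟨c, hc⟩ => absurd hc (Set.notMem_empty _), ?_⟩⟩
      rintro ⟨x, y, _, _, h2⟩
      have : (e x, e y) ∈ (fun p : X × X => (e p.1, e p.2)) '' {p : X × X | R p.1 p.2} :=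
        ⟨(x, y), h2, rfl⟩
      rw [h1] at this
      exact absurd this (Set.notMem_empty _)
    · refine ⟨{p | g p.2.2 = (p.1, p.2.1)}, ?_, fun a b => ?_⟩
      · exact isClosed_eq (hg.comp (continuous_snd.comp continuous_snd))
          (continuous_fst.prodMk (continuous_fst.comp continuous_snd))
      · constructor
        · rintro ⟨c, hc⟩
          have h2 : (a, b) ∈ Set.range g := ⟨c, hc⟩
          rw [hr] at h2
          obtain ⟨⟨x, y⟩, h3, h4⟩ := h2
          simp only [Prod.mk.injEq] at h4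
          exact ⟨x, y, h4.1, h4.2, h3⟩
        · rintro ⟨x, y, rfl, rfl, h2⟩
          have h3 : (e x, e y) ∈ Set.range g := by
            rw [hr]
            exact ⟨(x, y), h2, rfl⟩
          obtain ⟨c, hc⟩ := h3
          exact ⟨c, hc⟩
  refine ⟨e, C, he, hinj, hC, fun x y => ?_⟩
  rw [← TT_iff hC (Q := fun a b => a = b ∨ ∃ c, (a, b, c) ∈ C) (fun a b => Iff.rfl)]
  · constructor
    · intro h
      exact Or.inr ((hCR _ _).2 ⟨x, y, rfl, rfl, h⟩)
    · rintro (h | h)
      · rw [hinj h]
        exact hrefl y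
      · obtain ⟨x', y', h2, h3, h4⟩ := (hCR _ _).1 h
        rw [← hinj h2, ← hinj h3]
        exact h4
  · rintro a b d (rfl | h) (rfl | h')
    · exact Or.inl rfl
    · exact Or.inr h'
    · exact Or.inr h
    · obtain ⟨x', y', h2, h3, h4⟩ := (hCR _ _).1 h
      obtain ⟨x'', y'', h5, h6, h7⟩ := (hCR _ _).1 h'
      refine Or.inr ((hCR _ _).2 ⟨x', y'', h2, h6, htr _ _ _ h4 ?_⟩)
      rw [hinj (h3.trans h5.symm)]
      exact h7

theorem main (X : Type) [TopologicalSpace X] [PolishSpace X] [MeasurableSpace X]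
    [BorelSpace X] (R : X → X → Prop) (hrefl : ∀ x, R x x)
    (htr : ∀ x y z, R x y → R y z → R x z)
    (hA : MeasureTheory.AnalyticSet {p : X × X | R p.1 p.2}) :
    ∃ B : Set (St ar), MeasurableSet B ∧
      (∀ (σ : Equiv.Perm ℕ) (u : St ar), u ∈ B ↔ (fun i v => u i (σ ∘ v)) ∈ B) ∧
      (∃ f : X → St ar, Measurable f ∧ (∀ x, f x ∈ B) ∧
        ∀ x y, R x y ↔ Nonempty (@FirstOrder.Language.ElementaryEmbedding (La ar) ℕ ℕ
          (strOf ar (f x)) (strOf ar (f y)))) ∧
      (∃ g : B → X, Measurable g ∧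
        ∀ u v : B, Nonempty (@FirstOrder.Language.ElementaryEmbedding (La ar) ℕ ℕ
          (strOf ar u.1) (strOf ar v.1)) ↔ R (g u) (g v)) := by
  obtain ⟨e, C, he, hinj, hC, hR⟩ := exists_closed X R hrefl htr hA
  have hemb : ∀ p ∈ ZZ C e, ∀ q ∈ ZZ C e,
      (Nonempty (@FirstOrder.Language.ElementaryEmbedding (La ar) ℕ ℕ
        (strOf ar (FZ p)) (strOf ar (FZ q))) ↔ R p.1 q.1) := by
    intro p hp q hq
    rw [hR]
    exact emb_TT (ZZ_inj hp) (ZZ_inj hq) (ZZ_range hp) (ZZ_range hq)
  have hstep : ∀ (σ : Equiv.Perm ℕ) (u : St ar), u ∈ FZ '' (ZZ C e) →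
      (fun i v => u i (σ ∘ v)) ∈ FZ '' (ZZ C e) := by
    rintro σ u ⟨⟨x, s⟩, hp, rfl⟩
    refine ⟨(x, s ∘ σ), ⟨hp.1.comp σ.injective, fun m => ?_⟩, ?_⟩
    · rw [← hp.2 m]
      constructor
      · rintro ⟨n, hn⟩
        exact ⟨σ n, hn⟩
      · rintro ⟨n, hn⟩
        exact ⟨σ.symm n, by
          change s (σ (σ.symm n)) = m
          rw [Equiv.apply_symm_apply]
          exact hn⟩
    · funext i v
      cases i with
      | zero => rfl
      | succ j => rfl
  refine ⟨FZ '' (ZZ C e), ?_, ?_, ?_, ?_⟩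
  · exact (meas_ZZ he).image_of_measurable_injOn meas_FZ (FZ_inj hinj)
  · intro σ u
    refine ⟨hstep σ u, fun h => ?_⟩
    have := hstep σ.symm _ h
    have e1 : (fun i v => (fun (i : ℕ) (v : Fin (ar i) → ℕ) => u i (σ ∘ v)) i (σ.symm ∘ v)) =
        u := by
      funext i v
      have : σ ∘ (σ.symm ∘ v) = v := by
        funext x
        simp
      change u i (σ ∘ (σ.symm ∘ v)) = u i v
      rw [this]
    rw [e1] at this
    exact this
  · refine ⟨fun x => FZ (x, fun n => Nat.nth (PP C e x) n), ?_, fun x => ⟨_, nth_mem x, rfl⟩,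
      fun x y => (hemb _ (nth_mem x) _ (nth_mem y)).symm⟩
    exact meas_FZ.comp (measurable_id.prodMk (measurable_pi_lambda _ fun n => meas_nth he n))
  · choose G hG1 hG2 using fun u : (FZ '' (ZZ C e) : Set (St ar)) => u.2
    refine ⟨fun u => (G u).1, ?_, fun u v => ?_⟩
    · intro A hA
      have h1 : (fun u => (G u).1) ⁻¹' A =
          Subtype.val ⁻¹' (FZ '' (ZZ C e ∩ Prod.fst ⁻¹' A)) := by
        ext u
        constructor
        · intro h
          exact ⟨G u, ⟨hG1 u, h⟩, hG2 u⟩
        · rintro ⟨p, ⟨h2, h3⟩, h4⟩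
          have h5 : p = G u := FZ_inj hinj h2 (hG1 u) (h4.trans (hG2 u).symm)
          rw [h5] at h3
          exact h3
      rw [h1]
      exact measurable_subtype_coe (((meas_ZZ he).inter
        (measurable_fst hA)).image_of_measurable_injOn meas_FZ
        ((FZ_inj hinj).mono Set.inter_subset_left))
    · have := hemb _ (hG1 u) _ (hG1 v)
      rw [hG2, hG2] at this
      exact this

end Pool.Agent.X223.EE
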