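import Pool.Agent.X223.EE.QE

set_option autoImplicit false

namespace Pool.Agent.X223.EE

/-- Levels of the hierarchy of finite sets above `V`. -/
def EE (V : Type) : ℕ → Type
  | 0 => V
  | i + 1 => EE V i ⊕ Finset (EE V i)

/-- All points: vertices and ordinary points. -/
abbrev Om (V : Type) := V ⊕ (Σ i, Finset (EE V i))

variable {V : Type}

/-- The inclusion of a level. -/
def io : ∀ i, EE V i → Om V
  | 0 => fun v => Sum.inl v
  | i + 1 => Sum.elim (io i) (fun F => Sum.inr ⟨i, F⟩)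

/-- Index. -/
def idx : Om V → ℕ := Sum.elim (fun _ => 0) (fun p => p.1 + 1)

theorem io_idx_le : ∀ (i : ℕ) (e : EE V i), idx (io i e) ≤ i
  | 0, _ => le_rfl
  | i + 1, Sum.inl e => (io_idx_le i e).trans (Nat.le_succ i)
  | _ + 1, Sum.inr _ => le_rfl

theorem io_inj : ∀ i : ℕ, Function.Injective (io (V := V) i)
  | 0 => fun _ _ h => Sum.inl_injective h
  | i + 1 => by
    rintro (e | F) (e' | F') h
    · exact congrArg Sum.inl (io_inj i h)
    · exfalso
      have h1 := io_idx_le i e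
      have h2 : idx (io i e) = i + 1 := by
        change io i e = Sum.inr ⟨i, F'⟩ at h
        rw [h]
        rfl
      omega
    · exfalso
      have h1 := io_idx_le i e'
      have h2 : idx (io i e') = i + 1 := by
        change Sum.inr ⟨i, F⟩ = io i e' at h
        rw [← h]
        rfl
      omega
    · change (Sum.inr ⟨i, F⟩ : Om V) = Sum.inr ⟨i, F'⟩ at h
      have := Sum.inr_injective h
      have h3 : F = F' := eq_of_heq (Sigma.mk.inj this).2
      rw [h3]

theorem io_surj : ∀ (i : ℕ) (w : Om V), idx w ≤ i → ∃ e, io i e = w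
  | 0, Sum.inl v, _ => ⟨v, rfl⟩
  | 0, Sum.inr p, h => absurd h (by simp [idx])
  | i + 1, w, h => by
    rcases Nat.lt_or_ge i (idx w) with h1 | h1
    · obtain (v | ⟨i', F⟩) := w
      · simp [idx] at h1
      · have : i' = i := by
          simp only [idx, Sum.elim_inr] at h h1
          omega
        subst this
        exact ⟨Sum.inr F, rfl⟩
    · obtain ⟨e, he⟩ := io_surj i w h1
      exact ⟨Sum.inl e, he⟩

/-- Membership. -/
def mem (w : Om V) : Om V → Prop :=
  Sum.elim (fun _ => False) (fun p => ∃ e ∈ p.2, io p.1 e = w)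

theorem mem_inr {w : Om V} {i : ℕ} {F : Finset (EE V i)} :
    mem w (Sum.inr ⟨i, F⟩) ↔ ∃ e ∈ F, io i e = w := Iff.rfl

theorem not_mem_inl {w : Om V} {v : V} : ¬ mem w (Sum.inl v) := id

theorem mem_io {i : ℕ} {F : Finset (EE V i)} {e : EE V i} :
    mem (io i e) (Sum.inr ⟨i, F⟩) ↔ e ∈ F := by
  rw [mem_inr]
  constructor
  · rintro ⟨e', h1, h2⟩
    rw [← io_inj i h2]
    exact h1
  · exact fun h => ⟨e, h, rfl⟩

theorem mem_idx_lt {w w' : Om V} (h : mem w w') : idx w < idx w' := by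
  obtain (v | ⟨i, F⟩) := w'
  · exact absurd h not_mem_inl
  · obtain ⟨e, _, rfl⟩ := h
    have := io_idx_le i e
    simp only [idx, Sum.elim_inr] at this ⊢
    omega

/-- Adjacency. -/
def adj (A : V → V → Prop) (w w' : Om V) : Prop :=
  mem w w' ∨ mem w' w ∨ ∃ v v', w = Sum.inl v ∧ w' = Sum.inl v' ∧ A v v'

theorem adj_symm {A : V → V → Prop} (hA : ∀ v v', A v v' → A v' v) {w w' : Om V}
    (h : adj A w w') : adj A w' w := by
  rcases h with h | h | ⟨v, v', h1, h2, h3⟩
  · exact Or.inr (Or.inl h)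
  · exact Or.inl h
  · exact Or.inr (Or.inr ⟨v', v, h2, h1, hA _ _ h3⟩)

theorem adj_irr {A : V → V → Prop} (hA : ∀ v, ¬ A v v) {w : Om V} : ¬ adj A w w := by
  rintro (h | h | ⟨v, v', h1, h2, h3⟩)
  · exact lt_irrefl _ (mem_idx_lt h)
  · exact lt_irrefl _ (mem_idx_lt h)
  · rw [h1] at h2
    rw [← Sum.inl_injective h2] at h3
    exact hA v h3

theorem adj_inl {A : V → V → Prop} {v v' : V} : adj A (Sum.inl v) (Sum.inl v') ↔ A v v' := by
  constructor
  · rintro (h | h | ⟨u, u', h1, h2, h3⟩)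
    · exact absurd h not_mem_inl
    · exact absurd h not_mem_inl
    · rw [Sum.inl_injective h1, Sum.inl_injective h2]
      exact h3
  · exact fun h => Or.inr (Or.inr ⟨v, v', rfl, rfl, h⟩)

theorem adj_of_idx_lt {A : V → V → Prop} {w w' : Om V} (h : idx w < idx w') :
    adj A w w' ↔ mem w w' := by
  constructor
  · rintro (h1 | h1 | ⟨u, u', h1, h2, h3⟩)
    · exact h1
    · exact absurd (mem_idx_lt h1) (by omega)
    · rw [h1, h2] at h
      simp [idx] at h
  · exact Or.inl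

/-- Colours. -/
def col (lab : V → ℕ) (j : ℕ) : Om V → Bool :=
  Sum.elim (fun v => decide (lab v ≤ j)) (fun p => Nat.testBit p.1 j)

theorem bit_false {i j : ℕ} (h : i ≤ j) : Nat.testBit i j = false :=
  Nat.testBit_lt_two_pow (lt_of_le_of_lt h Nat.lt_two_pow_self)

theorem col_inl {lab : V → ℕ} {w : Om V} {v : V}
    (h : ∀ j, col lab j w = col lab j (Sum.inl v)) : ∃ v', w = Sum.inl v' ∧ lab v' = lab v := by
  obtain (v' | ⟨i, F⟩) := w
  · refine ⟨v', rfl, ?_⟩
    have h1 := h (lab v)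
    have h2 := h (lab v')
    simp only [col, Sum.elim_inl, decide_eq_decide, le_refl, iff_true, true_iff] at h1 h2
    omega
  · exfalso
    have h1 := h (max i (lab v))
    simp only [col, Sum.elim_inl, Sum.elim_inr] at h1
    rw [bit_false (le_max_left _ _)] at h1
    simp at h1

theorem col_inr {lab : V → ℕ} {w : Om V} {i : ℕ} {F : Finset (EE V i)}
    (h : ∀ j, col lab j w = col lab j (Sum.inr ⟨i, F⟩)) : ∃ F', w = Sum.inr ⟨i, F'⟩ := by
  obtain (v' | ⟨i', F'⟩) := w
  · exfalso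
    obtain ⟨v, h1, _⟩ := col_inl (fun j => (h j).symm)
    exact absurd h1 (by simp)
  · have : i' = i := Nat.eq_of_testBit_eq fun j => h j
    subst this
    exact ⟨F', rfl⟩

theorem col_idx {lab : V → ℕ} {w w' : Om V} (h : ∀ j, col lab j w = col lab j w') :
    idx w = idx w' := by
  obtain (v | ⟨i, F⟩) := w'
  · obtain ⟨v', rfl, _⟩ := col_inl h
    rfl
  · obtain ⟨F', rfl⟩ := col_inr h
    rfl

/-- Support of a point contained in `W`. -/
def dE (W : Set V) : ∀ i, EE V i → Prop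
  | 0 => fun v => v ∈ W
  | i + 1 => Sum.elim (dE W i) (fun F => ∀ e ∈ F, dE W i e)

/-- The points with support in `W`. -/
def D (W : Set V) : Set (Om V) :=
  fun w => Sum.elim (fun v => v ∈ W) (fun p : (Σ i, Finset (EE V i)) => ∀ e ∈ p.2, dE W p.1 e) w

theorem D_inl {W : Set V} {v : V} : (Sum.inl v : Om V) ∈ D W ↔ v ∈ W := Iff.rfl

theorem D_inr {W : Set V} {i : ℕ} {F : Finset (EE V i)} :
    (Sum.inr ⟨i, F⟩ : Om V) ∈ D W ↔ ∀ e ∈ F, dE W i e := Iff.rfl

theorem D_io {W : Set V} : ∀ (i : ℕ) (e : EE V i), io i e ∈ D W ↔ dE W i e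
  | 0, _ => Iff.rfl
  | i + 1, Sum.inl e => D_io i e
  | _ + 1, Sum.inr _ => Iff.rfl

theorem D_closed {W : Set V} {w w' : Om V} (h : mem w w') (hw : w' ∈ D W) : w ∈ D W := by
  obtain (v | ⟨i, F⟩) := w'
  · exact absurd h not_mem_inl
  · obtain ⟨e, h1, rfl⟩ := h
    rw [D_io]
    exact hw e h1

/-- The induced map on levels. -/
def JE (j : V ↪ V) : ∀ i, EE V i ↪ EE V i
  | 0 => j
  | i + 1 => (JE j i).sumMap (Finset.mapEmbedding (JE j i)).toEmbedding

/-- The induced map. -/
def J (j : V ↪ V) : Om V → Om V :=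
  Sum.elim (fun v => Sum.inl (j v)) (fun p => Sum.inr ⟨p.1, p.2.map (JE j p.1)⟩)

theorem J_io (j : V ↪ V) : ∀ (i : ℕ) (e : EE V i), J j (io i e) = io i (JE j i e)
  | 0, _ => rfl
  | i + 1, Sum.inl e => J_io j i e
  | _ + 1, Sum.inr _ => rfl

theorem J_inj (j : V ↪ V) : Function.Injective (J j) := by
  intro w w' h
  obtain ⟨i, hi, hi'⟩ : ∃ i, idx w ≤ i ∧ idx w' ≤ i := ⟨_, le_max_left _ _, le_max_right _ _⟩
  obtain ⟨e, rfl⟩ := io_surj i w hi
  obtain ⟨e', rfl⟩ := io_surj i w' hi'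
  rw [J_io, J_io] at h
  rw [(JE j i).injective (io_inj i h)]

theorem J_mem (j : V ↪ V) {w w' : Om V} : mem (J j w) (J j w') ↔ mem w w' := by
  obtain (v | ⟨i, F⟩) := w'
  · exact Iff.rfl
  · change (∃ e ∈ F.map (JE j i), io i e = J j w) ↔ (∃ e ∈ F, io i e = w)
    constructor
    · rintro ⟨e, h1, h2⟩
      rw [Finset.mem_map] at h1
      obtain ⟨e', h3, rfl⟩ := h1
      refine ⟨e', h3, J_inj j ?_⟩
      rw [J_io]
      exact h2
    · rintro ⟨e, h1, rfl⟩
      exact ⟨JE j i e, Finset.mem_map_of_mem _ h1, (J_io j i e).symm⟩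

theorem J_adj (j : V ↪ V) {A : V → V → Prop} (hA : ∀ v v', A (j v) (j v') ↔ A v v')
    {w w' : Om V} : adj A (J j w) (J j w') ↔ adj A w w' := by
  unfold adj
  rw [J_mem, J_mem]
  refine or_congr Iff.rfl (or_congr Iff.rfl ?_)
  constructor
  · rintro ⟨v, v', h1, h2, h3⟩
    obtain (u | ⟨i, F⟩) := w
    · obtain (u' | ⟨i', F'⟩) := w'
      · refine ⟨u, u', rfl, rfl, ?_⟩
        rw [← Sum.inl_injective h1, ← Sum.inl_injective h2, hA] at h3
        exact h3
      · exact absurd h2 (by simp [J])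
    · exact absurd h1 (by simp [J])
  · rintro ⟨v, v', rfl, rfl, h3⟩
    exact ⟨j v, j v', rfl, rfl, (hA _ _).2 h3⟩

theorem J_col (j : V ↪ V) {lab : V → ℕ} (hl : ∀ v, lab (j v) = lab v) (m : ℕ) (w : Om V) :
    col lab m (J j w) = col lab m w := by
  obtain (v | ⟨i, F⟩) := w
  · change decide (lab (j v) ≤ m) = decide (lab v ≤ m)
    rw [hl]
  · rfl

theorem JE_dE (j : V ↪ V) {W W' : Set V} (h : ∀ v ∈ W, j v ∈ W') :
    ∀ (i : ℕ) (e : EE V i), dE W i e → dE W' i (JE j i e)
  | 0, v => h v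
  | i + 1, Sum.inl e => JE_dE j h i e
  | i + 1, Sum.inr F => by
    intro hF
    change ∀ e ∈ F.map (JE j i), dE W' i e
    intro e he
    rw [Finset.mem_map] at he
    obtain ⟨e', h3, rfl⟩ := he
    exact JE_dE j h i e' (hF e' h3)

theorem J_D (j : V ↪ V) {W W' : Set V} (h : ∀ v ∈ W, j v ∈ W') {w : Om V} (hw : w ∈ D W) :
    J j w ∈ D W' := by
  obtain ⟨i, hi⟩ : ∃ i, idx w ≤ i := ⟨_, le_rfl⟩
  obtain ⟨e, rfl⟩ := io_surj i w hi
  rw [J_io, D_io]
  rw [D_io] at hw
  exact JE_dE j h _ _ hw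

theorem exists_bits (M k : ℕ) (w : ℕ → Bool) : ∃ i, M ≤ i ∧ ∀ j < k, Nat.testBit i j = w j := by
  refine ⟨Nat.ofBits (n := k + M + 1) (fun j => if (j : ℕ) < k then w j else true), ?_, ?_⟩
  · have h1 : Nat.testBit (Nat.ofBits (n := k + M + 1)
      (fun j => if (j : ℕ) < k then w j else true)) (k + M) = true := by
      rw [Nat.testBit_ofBits_lt _ _ (by omega)]
      simp
    have h2 := Nat.ge_two_pow_of_testBit h1
    have h3 : k + M < 2 ^ (k + M) := Nat.lt_two_pow_self
    omega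
  · intro j hj
    rw [Nat.testBit_ofBits_lt _ _ (by omega)]
    simp [hj]

theorem gen_D {A : V → V → Prop} {lab : V → ℕ} {W : Set V} (F1 F2 : Finset (Om V))
    (h1 : ∀ w ∈ F1, w ∈ D W) (hd : Disjoint F1 F2) (k : ℕ) (w : ℕ → Bool) :
    ∃ c ∈ D W, c ∉ F1 ∧ c ∉ F2 ∧ (∀ d ∈ F1, adj A c d) ∧ (∀ d ∈ F2, ¬ adj A c d) ∧
      ∀ j < k, col lab j c = w j := by
  classical
  obtain ⟨i, hi, hb⟩ := exists_bits ((F1 ∪ F2).sup idx) k w
  have hidx : ∀ d ∈ F1 ∪ F2, idx d ≤ i := fun d hd => (Finset.le_sup (f := idx) hd).trans hi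
  refine ⟨Sum.inr ⟨i, F1.preimage (io i) ((io_inj i).injOn)⟩, ?_, ?_, ?_, ?_, ?_, hb⟩
  · rw [D_inr]
    intro e he
    rw [Finset.mem_preimage] at he
    exact (D_io i e).1 (h1 _ he)
  · intro hh
    have := hidx _ (Finset.mem_union_left _ hh)
    simp only [idx, Sum.elim_inr] at this
    omega
  · intro hh
    have := hidx _ (Finset.mem_union_right _ hh)
    simp only [idx, Sum.elim_inr] at this
    omega
  · intro d hdd
    obtain ⟨e, rfl⟩ := io_surj i d (hidx _ (Finset.mem_union_left _ hdd))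
    exact Or.inr (Or.inl (mem_io.2 (Finset.mem_preimage.2 hdd)))
  · intro d hdd
    have hlt := hidx _ (Finset.mem_union_right _ hdd)
    rintro (h | h | ⟨v, v', h3, _⟩)
    · have := mem_idx_lt h
      simp only [idx, Sum.elim_inr] at this hlt
      omega
    · obtain ⟨e, rfl⟩ := io_surj i d hlt
      rw [mem_io, Finset.mem_preimage] at h
      exact Finset.disjoint_left.1 hd h hdd
    · exact absurd h3 (by simp)

open Classical in
/-- The structure on `ℕ` pulled back by an enumeration. -/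
noncomputable def FF (A : V → V → Prop) (lab : V → ℕ) (s : ℕ → Om V) : St ar
  | 0 => fun v => decide (adj A (s (v (0 : Fin 2))) (s (v (1 : Fin 2))))
  | j + 1 => fun v => col lab j (s (v (0 : Fin 1)))

theorem FF_EB {A : V → V → Prop} {lab : V → ℕ} {s : ℕ → Om V} {m n : ℕ} :
    EB (FF A lab s) m n = true ↔ adj A (s m) (s n) := by
  classical
  change decide (adj A (s m) (s n)) = true ↔ _
  rw [decide_eq_true_iff]

theorem FF_UB {A : V → V → Prop} {lab : V → ℕ} {s : ℕ → Om V} {j m : ℕ} :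
    UB (FF A lab s) j m = col lab j (s m) := rfl

theorem FF_gen {A : V → V → Prop} {lab : V → ℕ} {s : ℕ → Om V} {W : Set V}
    (hA : ∀ v v', A v v' → A v' v) (hA' : ∀ v, ¬ A v v)
    (hs : Function.Injective s) (hr : Set.range s = D W) : Gen (FF A lab s) := by
  classical
  refine ⟨fun m n => ?_, fun m => ?_, fun F1 F2 k w hd => ?_⟩
  · rw [Bool.eq_iff_iff, FF_EB, FF_EB]
    exact ⟨adj_symm hA, adj_symm hA⟩
  · rw [Bool.eq_false_iff]
    intro h
    rw [FF_EB] at h
    exact adj_irr hA' h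
  · obtain ⟨c, h1, h2, h3, h4, h5, h6⟩ := gen_D (A := A) (lab := lab) (W := W) (F1.image s)
      (F2.image s) (fun d hd => by
        rw [Finset.mem_image] at hd
        obtain ⟨m, _, rfl⟩ := hd
        rw [← hr]
        exact ⟨m, rfl⟩) ((Finset.disjoint_image hs).2 hd) k w
    rw [← hr] at h1
    obtain ⟨m, rfl⟩ := h1
    refine ⟨m, fun h => h2 (Finset.mem_image_of_mem _ h), fun h => h3 (Finset.mem_image_of_mem _ h),
      fun d hd => FF_EB.2 (h4 _ (Finset.mem_image_of_mem _ hd)), fun d hd => ?_, h6⟩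
    rw [Bool.eq_false_iff]
    intro h
    rw [FF_EB] at h
    exact h5 _ (Finset.mem_image_of_mem _ hd) h

theorem rigid_aux {A : V → V → Prop} {lab : V → ℕ} {s t : ℕ → Om V} {W : Set V}
    (hr : Set.range s = D W) (h : FF A lab s = FF A lab t)
    {m i : ℕ} {F F' : Finset (EE V i)}
    (hm : s m = Sum.inr ⟨i, F⟩) (hm' : t m = Sum.inr ⟨i, F'⟩)
    (ih : ∀ m', idx (s m') ≤ i → s m' = t m') : F ⊆ F' := by
  intro e he
  have h1 : io i e ∈ D W := by
    refine D_closed (w' := s m) ?_ (by rw [← hr]; exact ⟨m, rfl⟩)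
    rw [hm]
    exact mem_io.2 he
  rw [← hr] at h1
  obtain ⟨m', hm1⟩ := h1
  have hle : idx (s m') ≤ i := by
    rw [hm1]
    exact io_idx_le i e
  have h2 : adj A (s m') (s m) := by
    rw [hm1, hm]
    exact Or.inl (mem_io.2 he)
  rw [← FF_EB (A := A) (lab := lab), h, FF_EB, ← ih m' hle, hm1, hm', adj_of_idx_lt, mem_io] at h2
  · exact h2
  · have := io_idx_le i e
    simp only [idx, Sum.elim_inr] at this ⊢
    omega

theorem FF_col {A : V → V → Prop} {lab : V → ℕ} {s t : ℕ → Om V}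
    (h : FF A lab s = FF A lab t) (m j : ℕ) : col lab j (s m) = col lab j (t m) := by
  rw [← FF_UB (A := A), h, FF_UB]

theorem rigid {A : V → V → Prop} {lab : V → ℕ} {s t : ℕ → Om V} {W W' : Set V}
    (hr : Set.range s = D W) (hr' : Set.range t = D W') (h : FF A lab s = FF A lab t)
    (hsp : ∀ m v, s m = Sum.inl v → t m = Sum.inl v) : s = t := by
  have key : ∀ N m, idx (s m) ≤ N → s m = t m := by
    intro N
    induction N with
    | zero =>
      intro m hm
      obtain ⟨v, hv⟩ : ∃ v, s m = Sum.inl v := by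
        obtain ⟨e, he⟩ := io_surj 0 (s m) hm
        exact ⟨e, he.symm⟩
      rw [hv, hsp m v hv]
    | succ i ih =>
      intro m hm
      rcases hsm : s m with v | ⟨i', F⟩
      · rw [hsp m v hsm]
      · obtain ⟨F', hF'⟩ : ∃ F', t m = Sum.inr ⟨i', F'⟩ := by
          apply col_inr (lab := lab)
          intro j
          rw [← hsm]
          exact (FF_col h m j).symm
        rw [hF']
        rw [hsm] at hm
        simp only [idx, Sum.elim_inr] at hm
        have ih' : ∀ m', idx (s m') ≤ i' → s m' = t m' := fun m' hm' => ih m' (by omega)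
        have e1 : F ⊆ F' := rigid_aux hr h hsm hF' ih'
        have e2 : F' ⊆ F := by
          refine rigid_aux hr' h.symm hF' hsm (fun m' hm' => (ih' m' ?_).symm)
          rw [col_idx (lab := lab) (FF_col h m')]
          exact hm'
        rw [Finset.Subset.antisymm e1 e2]
  funext m
  exact key _ m le_rfl

theorem D_infinite (W : Set V) : (D W).Infinite := by
  refine Set.infinite_of_injective_forall_mem (f := fun i : ℕ => (Sum.inr ⟨i, ∅⟩ : Om V)) ?_ ?_
  · intro i i' h
    have := congrArg idx h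
    simpa [idx] using this
  · intro i
    rw [D_inr]
    intro e he
    simp at he

instance instCountableEE [Countable V] : ∀ i, Countable (EE V i)
  | 0 => inferInstanceAs (Countable V)
  | i + 1 => by
    have := instCountableEE i
    exact inferInstanceAs (Countable (EE V i ⊕ Finset (EE V i)))

theorem meas_dE {X : Type} [MeasurableSpace X] (W : X → Set V)
    (h : ∀ v, MeasurableSet {x | v ∈ W x}) :
    ∀ (i : ℕ) (e : EE V i), MeasurableSet {x | dE (W x) i e}
  | 0, v => h v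
  | i + 1, Sum.inl e => meas_dE W h i e
  | i + 1, Sum.inr F => by
    change MeasurableSet {x | ∀ e ∈ F, dE (W x) i e}
    have : {x | ∀ e ∈ F, dE (W x) i e} = ⋂ e ∈ F, {x | dE (W x) i e} := by
      ext x
      simp
    rw [this]
    exact Finset.measurableSet_biInter F (fun e _ => meas_dE W h i e)

theorem meas_D {X : Type} [MeasurableSpace X] (W : X → Set V)
    (h : ∀ v, MeasurableSet {x | v ∈ W x}) (w : Om V) : MeasurableSet {x | w ∈ D (W x)} := by
  obtain ⟨i, hi⟩ : ∃ i, idx w ≤ i := ⟨_, le_rfl⟩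
  obtain ⟨e, rfl⟩ := io_surj i w hi
  simp only [D_io]
  exact meas_dE W h _ _

end Pool.Agent.X223.EE
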