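import Mathlib

set_option autoImplicit false

namespace Pool.Agent.X223.EE

open FirstOrder FirstOrder.Language

/-- Arities: one binary symbol, and unary symbols. -/
def ar : ℕ → ℕ
  | 0 => 2
  | _ + 1 => 1

/-- Codes of structures. -/
abbrev St (a : ℕ → ℕ) := ∀ i : ℕ, (Fin (a i) → ℕ) → Bool

/-- The relational language. -/
abbrev La (a : ℕ → ℕ) : FirstOrder.Language :=
  FirstOrder.Language.mk (fun _ => PEmpty.{1}) (fun n => {i : ℕ // a i = n})

/-- The structure coded by `u`. -/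
@[reducible] def strOf (a : ℕ → ℕ) (u : St a) : (La a).Structure ℕ :=
  @FirstOrder.Language.Structure.mk (La a) ℕ (fun f _ => PEmpty.elim f)
    (fun r xs => u (Subtype.val r) (xs ∘ Fin.cast (Subtype.property r)) = true)

/-- Edge relation. -/
def EB (u : St ar) (m n : ℕ) : Bool := u 0 (![m, n] : Fin 2 → ℕ)

/-- Colours. -/
def UB (u : St ar) (j m : ℕ) : Bool := u (j + 1) (fun _ => m)

/-- Generic structures. -/
structure Gen (u : St ar) : Prop where
  symm : ∀ m n, EB u m n = EB u n m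
  irr : ∀ m, EB u m m = false
  ext : ∀ (F1 F2 : Finset ℕ) (k : ℕ) (w : ℕ → Bool), Disjoint F1 F2 →
    ∃ c, c ∉ F1 ∧ c ∉ F2 ∧ (∀ d ∈ F1, EB u c d = true) ∧ (∀ d ∈ F2, EB u c d = false) ∧
      ∀ j < k, UB u j c = w j

/-- Equality of quantifier-free patterns. -/
structure Pat {ι : Type} (k : ℕ) (u u' : St ar) (s t : ι → ℕ) : Prop where
  eq : ∀ i j, s i = s j ↔ t i = t j
  e : ∀ i j, EB u (s i) (s j) = EB u' (t i) (t j)
  c : ∀ l < k, ∀ i, UB u l (s i) = UB u' l (t i)

theorem Pat.mono {ι : Type} {k k' : ℕ} {u u' : St ar} {s t : ι → ℕ} (h : Pat k' u u' s t)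
    (hk : k ≤ k') : Pat k u u' s t :=
  ⟨h.eq, h.e, fun l hl i => h.c l (lt_of_lt_of_le hl hk) i⟩

theorem Pat.swap {ι : Type} {k : ℕ} {u u' : St ar} {s t : ι → ℕ} (h : Pat k u u' s t) :
    Pat k u' u t s :=
  ⟨fun i j => (h.eq i j).symm, fun i j => (h.e i j).symm, fun l hl i => (h.c l hl i).symm⟩

theorem back {ι : Type} [Finite ι] {k : ℕ} {u u' : St ar} {s t : ι → ℕ} (hu : Gen u)
    (hu' : Gen u') (h : Pat k u u' s t) (b : ℕ) :
    ∃ a, (∀ i, s i = a ↔ t i = b) ∧ (∀ i, EB u (s i) a = EB u' (t i) b) ∧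
      (∀ l < k, UB u l a = UB u' l b) := by
  classical
  by_cases hb : ∃ i, t i = b
  · obtain ⟨i, rfl⟩ := hb
    exact ⟨s i, fun j => h.eq j i, fun j => h.e j i, fun l hl => h.c l hl i⟩
  · push Not at hb
    have := Fintype.ofFinite ι
    obtain ⟨c, h1, h2, h3, h4, h5⟩ := hu.ext
      ((Finset.univ.filter (fun i => EB u' (t i) b = true)).image s)
      ((Finset.univ.filter (fun i => EB u' (t i) b = false)).image s) k (fun l => UB u' l b) (by
        rw [Finset.disjoint_left]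
        intro x hx hx'
        simp only [Finset.mem_image, Finset.mem_filter, Finset.mem_univ, true_and] at hx hx'
        obtain ⟨i, hi, rfl⟩ := hx
        obtain ⟨j, hj, hji⟩ := hx'
        rw [h.eq] at hji
        rw [hji, hi] at hj
        exact absurd hj (by simp))
    simp only [Finset.mem_image, Finset.mem_filter, Finset.mem_univ, true_and, not_exists,
      not_and] at h1 h2 h3 h4
    refine ⟨c, fun i => ?_, fun i => ?_, h5⟩
    · constructor
      · intro hi
        exfalso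
        cases hc : EB u' (t i) b
        · exact h2 i hc hi
        · exact h1 i hc hi
      · intro hi
        exact absurd hi (hb i)
    · cases hc : EB u' (t i) b
      · rw [hu.symm]
        exact h4 (s i) ⟨i, hc, rfl⟩
      · rw [hu.symm]
        exact h3 (s i) ⟨i, hc, rfl⟩

theorem extPat {α : Type} {n k : ℕ} {u u' : St ar} (hu : Gen u) (hu' : Gen u')
    {v v' : α → ℕ} {xs xs' : Fin n → ℕ}
    (h : Pat k u u' (Sum.elim v xs) (Sum.elim v' xs')) {a b : ℕ}
    (h1 : ∀ i, Sum.elim v xs i = a ↔ Sum.elim v' xs' i = b)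
    (h2 : ∀ i, EB u (Sum.elim v xs i) a = EB u' (Sum.elim v' xs' i) b)
    (h3 : ∀ l < k, UB u l a = UB u' l b) :
    Pat k u u' (Sum.elim v (Fin.snoc xs a : Fin (n + 1) → ℕ))
      (Sum.elim v' (Fin.snoc xs' b : Fin (n + 1) → ℕ)) := by
  have key : ∀ i : α ⊕ Fin (n + 1), (∃ i0 : α ⊕ Fin n,
      Sum.elim v (Fin.snoc xs a : Fin (n + 1) → ℕ) i = Sum.elim v xs i0 ∧
      Sum.elim v' (Fin.snoc xs' b : Fin (n + 1) → ℕ) i = Sum.elim v' xs' i0) ∨
      (Sum.elim v (Fin.snoc xs a : Fin (n + 1) → ℕ) i = a ∧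
      Sum.elim v' (Fin.snoc xs' b : Fin (n + 1) → ℕ) i = b) := by
    rintro (i | i)
    · exact Or.inl ⟨Sum.inl i, rfl, rfl⟩
    · refine Fin.lastCases ?_ (fun j => ?_) i
      · right
        simp
      · left
        exact ⟨Sum.inr j, by simp, by simp⟩
  refine ⟨fun i j => ?_, fun i j => ?_, fun l hl i => ?_⟩
  · rcases key i with ⟨i0, e1, e2⟩ | ⟨e1, e2⟩ <;> rcases key j with ⟨j0, e3, e4⟩ | ⟨e3, e4⟩ <;>
      rw [e1, e2, e3, e4]
    · exact h.eq i0 j0
    · exact h1 i0
    · rw [eq_comm, h1 j0, eq_comm]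
    · simp
  · rcases key i with ⟨i0, e1, e2⟩ | ⟨e1, e2⟩ <;> rcases key j with ⟨j0, e3, e4⟩ | ⟨e3, e4⟩ <;>
      rw [e1, e2, e3, e4]
    · exact h.e i0 j0
    · exact h2 i0
    · rw [hu.symm, hu'.symm]
      exact h2 j0
    · rw [hu.irr, hu'.irr]
  · rcases key i with ⟨i0, e1, e2⟩ | ⟨e1, e2⟩ <;> rw [e1, e2]
    · exact h.c l hl i0
    · exact h3 l hl

theorem rel_val {u u' : St ar} {ι : Type} {k : ℕ} {s t : ι → ℕ} (h : Pat k u u' s t) (i : ℕ)
    (w : Fin (ar i) → ι) (hk : i ≤ k) :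
    u i (fun x => s (w x)) = u' i (fun x => t (w x)) := by
  cases i with
  | zero =>
    have := h.e (w (0 : Fin 2)) (w (1 : Fin 2))
    unfold EB at this
    have e1 : (fun x => s (w x)) = (![s (w (0 : Fin 2)), s (w (1 : Fin 2))] : Fin 2 → ℕ) := by
      funext x
      change Fin 2 at x
      fin_cases x <;> rfl
    have e2 : (fun x => t (w x)) = (![t (w (0 : Fin 2)), t (w (1 : Fin 2))] : Fin 2 → ℕ) := by
      funext x
      change Fin 2 at x
      fin_cases x <;> rfl
    rw [e1, e2]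
    exact this
  | succ j =>
    have := h.c j (by omega) (w (0 : Fin 1))
    unfold UB at this
    have e1 : (fun x => s (w x)) = (fun _ => s (w (0 : Fin 1))) := by
      funext x
      change Fin 1 at x
      rw [Subsingleton.elim x 0]
    have e2 : (fun x => t (w x)) = (fun _ => t (w (0 : Fin 1))) := by
      funext x
      change Fin 1 at x
      rw [Subsingleton.elim x 0]
    rw [e1, e2]
    exact this

theorem term_var {β : Type} (t : (La ar).Term β) : ∃ i, t = Term.var i := by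
  cases t with
  | var i => exact ⟨i, rfl⟩
  | func f ts => exact PEmpty.elim f

theorem qe {α : Type} [Finite α] {n : ℕ} (φ : (La ar).BoundedFormula α n) :
    ∃ k, ∀ (u u' : St ar), Gen u → Gen u' → ∀ (v : α → ℕ) (xs : Fin n → ℕ) (v' : α → ℕ)
      (xs' : Fin n → ℕ), Pat k u u' (Sum.elim v xs) (Sum.elim v' xs') →
      (@BoundedFormula.Realize (La ar) ℕ (strOf ar u) α n φ v xs ↔
        @BoundedFormula.Realize (La ar) ℕ (strOf ar u') α n φ v' xs') := by
  induction φ with
  | falsum => exact ⟨0, fun u u' _ _ v xs v' xs' _ => Iff.rfl⟩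
  | equal t₁ t₂ =>
    obtain ⟨i, rfl⟩ := term_var t₁
    obtain ⟨j, rfl⟩ := term_var t₂
    exact ⟨0, fun u u' _ _ v xs v' xs' h => h.eq i j⟩
  | rel R ts =>
    obtain ⟨i, rfl⟩ := R
    choose w hw using fun x => term_var (ts x)
    refine ⟨i, fun u u' _ _ v xs v' xs' h => ?_⟩
    have e := rel_val h i w le_rfl
    have e1 : (fun x => Sum.elim v xs (w x)) = fun x =>
        @Term.realize (La ar) ℕ (strOf ar u) _ (Sum.elim v xs) (ts x) := by
      funext x
      rw [hw x]
      rfl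
    have e2 : (fun x => Sum.elim v' xs' (w x)) = fun x =>
        @Term.realize (La ar) ℕ (strOf ar u') _ (Sum.elim v' xs') (ts x) := by
      funext x
      rw [hw x]
      rfl
    rw [e1, e2] at e
    change (u i _ = true) ↔ (u' i _ = true)
    rw [show ((fun x => @Term.realize (La ar) ℕ (strOf ar u) _ (Sum.elim v xs) (ts x)) ∘
      Fin.cast _) = (fun x => @Term.realize (La ar) ℕ (strOf ar u) _ (Sum.elim v xs) (ts x))
      from rfl, e]
    exact Iff.rfl
  | imp f g hf hg =>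
    obtain ⟨k1, h1⟩ := hf
    obtain ⟨k2, h2⟩ := hg
    refine ⟨max k1 k2, fun u u' hu hu' v xs v' xs' h => ?_⟩
    have a1 := h1 u u' hu hu' v xs v' xs' (h.mono (le_max_left _ _))
    have a2 := h2 u u' hu hu' v xs v' xs' (h.mono (le_max_right _ _))
    change (_ → _) ↔ (_ → _)
    rw [a1, a2]
  | all f hf =>
    obtain ⟨k, hk⟩ := hf
    refine ⟨k, fun u u' hu hu' v xs v' xs' h => ?_⟩
    change (∀ a : ℕ, _) ↔ (∀ a : ℕ, _)
    constructor
    · intro hh b
      obtain ⟨a, h1, h2, h3⟩ := back hu hu' h b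
      exact (hk u u' hu hu' _ _ _ _ (extPat hu hu' h h1 h2 h3)).1 (hh a)
    · intro hh b
      obtain ⟨a, h1, h2, h3⟩ := back hu' hu h.swap b
      exact (hk u' u hu' hu _ _ _ _ (extPat hu' hu h.swap h1 h2 h3)).1 (hh a)

theorem emb_iff {u v : St ar} (hu : Gen u) (hv : Gen v) :
    Nonempty (@FirstOrder.Language.ElementaryEmbedding (La ar) ℕ ℕ (strOf ar u) (strOf ar v)) ↔
      ∃ h : ℕ → ℕ, Function.Injective h ∧ (∀ m n, EB v (h m) (h n) = EB u m n) ∧
        ∀ j m, UB v j (h m) = UB u j m := by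
  constructor
  · rintro ⟨f⟩
    let := strOf ar u
    refine ⟨fun m => @FirstOrder.Language.ElementaryEmbedding.toFun _ _ _ (strOf ar u)
      (strOf ar v) f m, ?_, ?_, ?_⟩
    · exact @FirstOrder.Language.ElementaryEmbedding.injective _ _ _ (strOf ar u) (strOf ar v) f
    · intro m n
      have := @FirstOrder.Language.ElementaryEmbedding.map_rel _ _ _ (strOf ar u) (strOf ar v) f
        2 ⟨0, rfl⟩ ![m, n]
      rw [Bool.eq_iff_iff]
      refine Iff.trans (Iff.of_eq (congrArg (fun w : Fin (ar 0) → ℕ => v 0 w = true) ?_)) this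
      funext x
      change Fin 2 at x
      fin_cases x <;> rfl
    · intro j m
      have := @FirstOrder.Language.ElementaryEmbedding.map_rel _ _ _ (strOf ar u) (strOf ar v) f
        1 ⟨j + 1, rfl⟩ (fun _ => m)
      rw [Bool.eq_iff_iff]
      exact this
  · rintro ⟨h, h1, h2, h3⟩
    refine ⟨@FirstOrder.Language.ElementaryEmbedding.mk _ _ _ (strOf ar u) (strOf ar v) h ?_⟩
    intro n φ x
    obtain ⟨k, hk⟩ := qe φ
    refine (hk u v hu hv x _ (h ∘ x) _ ?_).symm
    have hz : ∀ z : Fin n ⊕ Fin 0, ∃ i : Fin n, z = Sum.inl i := by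
      rintro (z | z)
      · exact ⟨z, rfl⟩
      · exact z.elim0
    refine ⟨fun i j => ?_, fun i j => ?_, fun l hl i => ?_⟩
    · obtain ⟨i, rfl⟩ := hz i
      obtain ⟨j, rfl⟩ := hz j
      exact h1.eq_iff.symm
    · obtain ⟨i, rfl⟩ := hz i
      obtain ⟨j, rfl⟩ := hz j
      exact (h2 _ _).symm
    · obtain ⟨i, rfl⟩ := hz i
      exact (h3 _ _).symm

end Pool.Agent.X223.EE
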