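import Mathlib

set_option autoImplicit false

namespace Pool.Agent.X223.EE

open Filter Topology

/-- Cantor space. -/
abbrev Ca := ℕ → Bool

/-- Agreement below `n`. -/
def ag {β : Type} (n : ℕ) (a b : ℕ → β) : Prop := ∀ i < n, a i = b i

theorem ag.refl {β : Type} (n : ℕ) (a : ℕ → β) : ag n a a := fun _ _ => rfl

theorem ag.symm {β : Type} {n : ℕ} {a b : ℕ → β} (h : ag n a b) : ag n b a :=
  fun i hi => (h i hi).symm

theorem ag.trans {β : Type} {n : ℕ} {a b c : ℕ → β} (h : ag n a b) (h' : ag n b c) : ag n a c :=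
  fun i hi => (h i hi).trans (h' i hi)

theorem ag.mono {β : Type} {m n : ℕ} {a b : ℕ → β} (h : ag n a b) (hm : m ≤ n) : ag m a b :=
  fun i hi => h i (lt_of_lt_of_le hi hm)

variable (C : Set (Ca × Ca × (ℕ → ℕ)))

/-- One step up to level `n`. -/
def SS (n : ℕ) (a b : Ca) (c : ℕ → ℕ) : Prop :=
  ∃ a' b' c', (a', b', c') ∈ C ∧ ag n a a' ∧ ag n b b' ∧ ag n c c'

/-- Chains up to level `n`. -/
def TT (n : ℕ) (a b : Ca) (c : ℕ → ℕ) : Prop :=
  n = 0 ∨ ∃ (p : ℕ → Ca) (q : ℕ → ℕ → ℕ), ag n (p 0) a ∧ ag n (p (c 0)) b ∧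
    ∀ i < c 0, (SS C n (p i) (p (i + 1)) (q i) ∨ ag n (p i) (p (i + 1))) ∧ ∀ j < n, q i j ≤ c j

variable {C}

theorem SS.congr {n : ℕ} {a b a' b' : Ca} {c c' : ℕ → ℕ} (h : SS C n a b c) (ha : ag n a a')
    (hb : ag n b b') (hc : ag n c c') : SS C n a' b' c' := by
  obtain ⟨x, y, z, h1, h2, h3, h4⟩ := h
  exact ⟨x, y, z, h1, ha.symm.trans h2, hb.symm.trans h3, hc.symm.trans h4⟩

theorem SS.mono {m n : ℕ} {a b : Ca} {c : ℕ → ℕ} (h : SS C n a b c) (hm : m ≤ n) :
    SS C m a b c := by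
  obtain ⟨x, y, z, h1, h2, h3, h4⟩ := h
  exact ⟨x, y, z, h1, h2.mono hm, h3.mono hm, h4.mono hm⟩

theorem TT_refl (n : ℕ) (a : Ca) : TT C n a a (fun _ => 0) :=
  Or.inr ⟨fun _ => a, fun _ _ => 0, ag.refl _ _, ag.refl _ _, fun i hi => absurd hi (by simp)⟩

theorem TT.mono {m n : ℕ} {a b : Ca} {c : ℕ → ℕ} (h : TT C n a b c) (hm : m ≤ n) :
    TT C m a b c := by
  rcases h with h | ⟨p, q, h1, h2, h3⟩
  · left
    omega
  · exact Or.inr ⟨p, q, h1.mono hm, h2.mono hm, fun i hi =>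
      ⟨(h3 i hi).1.imp (fun h => h.mono hm) (fun h => h.mono hm),
        fun j hj => (h3 i hi).2 j (lt_of_lt_of_le hj hm)⟩⟩

theorem TT.congr {n : ℕ} {a b a' b' : Ca} {c c' : ℕ → ℕ} (h : TT C n a b c) (ha : ag n a a')
    (hb : ag n b b') (hc : ag n c c') : TT C n a' b' c' := by
  rcases Nat.eq_zero_or_pos n with hn | hn
  · exact Or.inl hn
  · rcases h with h | ⟨p, q, h1, h2, h3⟩
    · omega
    · have h0 : c 0 = c' 0 := hc 0 hn
      refine Or.inr ⟨p, q, h1.trans ha, ?_, fun i hi => ?_⟩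
      · rw [← h0]
        exact h2.trans hb
      · rw [← h0] at hi
        refine ⟨(h3 i hi).1, fun j hj => ?_⟩
        rw [← hc j hj]
        exact (h3 i hi).2 j hj

theorem TT_zero {n : ℕ} {a b : Ca} (h : TT C n a b (fun _ => 0)) : ag n a b := by
  rcases h with h | ⟨p, q, h1, h2, _⟩
  · intro i hi
    omega
  · exact h1.symm.trans h2

theorem TT.comp {n : ℕ} {a b d : Ca} {s t : ℕ → ℕ} (h : TT C n a b s) (h' : TT C n b d t) :
    TT C n a d (fun i => s i + t i) := by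
  rcases h with h | ⟨p, q, h1, h2, h3⟩
  · exact Or.inl h
  rcases h' with h' | ⟨p', q', h1', h2', h3'⟩
  · exact Or.inl h'
  right
  refine ⟨fun i => if i < s 0 then p i else p' (i - s 0),
    fun i => if i < s 0 then q i else q' (i - s 0), ?_, ?_, ?_⟩
  · dsimp only
    split_ifs with hi
    · exact h1
    · have : s 0 = 0 := by omega
      rw [this] at h2 ⊢
      exact h1'.trans (h2.symm.trans h1)
  · dsimp only
    rw [if_neg (by omega), show s 0 + t 0 - s 0 = t 0 by omega]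
    exact h2'
  · intro i hi
    dsimp only at hi ⊢
    by_cases hi1 : i < s 0
    · rw [if_pos hi1, if_pos hi1]
      refine ⟨?_, fun j hj => ((h3 i hi1).2 j hj).trans (Nat.le_add_right _ _)⟩
      by_cases hi2 : i + 1 < s 0
      · rw [if_pos hi2]
        exact (h3 i hi1).1
      · rw [if_neg hi2, show i + 1 - s 0 = 0 by omega]
        have e : i + 1 = s 0 := by omega
        have h4 : ag n (p (i + 1)) (p' 0) := by
          rw [e]
          exact h2.trans h1'.symm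
        rcases (h3 i hi1).1 with h5 | h5
        · exact Or.inl (h5.congr (ag.refl _ _) h4 (ag.refl _ _))
        · exact Or.inr (h5.trans h4)
    · rw [if_neg hi1, if_neg hi1, if_neg (by omega), show i + 1 - s 0 = (i - s 0) + 1 by omega]
      have h5 := h3' (i - s 0) (by omega)
      exact ⟨h5.1, fun j hj => (h5.2 j hj).trans (Nat.le_add_left _ _)⟩

theorem TT_of_mem {a b : Ca} {c : ℕ → ℕ} (h : (a, b, c) ∈ C) (n : ℕ) :
    TT C n a b (fun i => c i + 1) := by
  right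
  refine ⟨fun i => if i = 0 then a else b, fun _ => c, ?_, ?_, ?_⟩
  · simp only [if_true]
    exact ag.refl _ _
  · dsimp only
    rw [if_neg (by omega)]
    exact ag.refl _ _
  · intro i _
    refine ⟨?_, fun j _ => Nat.le_succ _⟩
    dsimp only
    rw [if_neg (Nat.succ_ne_zero i)]
    by_cases hi : i = 0
    · rw [if_pos hi]
      exact Or.inl ⟨a, b, c, h, ag.refl _ _, ag.refl _ _, ag.refl _ _⟩
    · rw [if_neg hi]
      exact Or.inr (ag.refl _ _)

theorem ag_tendsto {β : Type} [TopologicalSpace β] {a : ℕ → β} {s : ℕ → ℕ → β} {M : ℕ}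
    (h : ∀ N, M ≤ N → ag N a (s N)) : Tendsto s atTop (𝓝 a) := by
  rw [tendsto_pi_nhds]
  intro j
  refine tendsto_const_nhds.congr' ?_
  filter_upwards [eventually_ge_atTop (max M (j + 1))] with N hN
  exact h N (le_trans (le_max_left _ _) hN) j (lt_of_lt_of_le (Nat.lt_succ_self j)
    (le_trans (le_max_right _ _) hN))

theorem closed_lim (hC : IsClosed C) {a b : Ca} {c : ℕ → ℕ} {M : ℕ}
    (h : ∀ N, M ≤ N → SS C N a b c) : (a, b, c) ∈ C := by
  choose a' b' c' h1 h2 h3 h4 using h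
  have e1 : Tendsto (fun N => if hN : M ≤ N then (a' N hN, b' N hN, c' N hN) else
      (a' M le_rfl, b' M le_rfl, c' M le_rfl)) atTop (𝓝 (a, b, c)) := by
    rw [Prod.tendsto_iff, Prod.tendsto_iff]
    refine ⟨ag_tendsto (M := M) ?_, ag_tendsto (M := M) ?_, ag_tendsto (M := M) ?_⟩
    · intro N hN
      rw [dif_pos hN]
      exact h2 N hN
    · intro N hN
      rw [dif_pos hN]
      exact h3 N hN
    · intro N hN
      rw [dif_pos hN]
      exact h4 N hN
  refine hC.mem_of_tendsto e1 (Eventually.of_forall fun N => ?_)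
  split_ifs with hN
  · exact h1 N hN
  · exact h1 M le_rfl

theorem compact_aux {z : ℕ → ℕ} (P : ℕ → ℕ → ℕ → Bool) (Q : ℕ → ℕ → ℕ → ℕ)
    (hQ : ∀ n i j, Q n i j ≤ z j) :
    ∃ (p : ℕ → ℕ → Bool) (q : ℕ → ℕ → ℕ), ∀ N, ∃ n, N ≤ n ∧ (∀ i < N, ag N (P n i) (p i)) ∧
      (∀ i < N, ag N (Q n i) (q i)) := by
  have hK : IsCompact ((Set.univ : Set (ℕ → ℕ → Bool)) ×ˢ (Set.pi Set.univ fun _ : ℕ =>
      Set.pi Set.univ fun j : ℕ => Set.Iic (z j))) :=
    isCompact_univ.prod (isCompact_univ_pi fun i => isCompact_univ_pi fun j =>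
      (Set.finite_Iic (z j)).isCompact)
  obtain ⟨⟨p, q⟩, _, f, hf, hlim⟩ := hK.tendsto_subseq (x := fun n => (P n, Q n))
    (fun n => ⟨trivial, fun i _ j _ => hQ n i j⟩)
  refine ⟨p, q, fun N => ?_⟩
  rw [Prod.tendsto_iff] at hlim
  have h1 : ∀ i j, ∀ᶠ k in atTop, P (f k) i j = p i j := by
    intro i j
    have := (tendsto_pi_nhds.1 ((tendsto_pi_nhds.1 hlim.1) i)) j
    rw [nhds_discrete, tendsto_pure] at this
    exact this
  have h2 : ∀ i j, ∀ᶠ k in atTop, Q (f k) i j = q i j := by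
    intro i j
    have := (tendsto_pi_nhds.1 ((tendsto_pi_nhds.1 hlim.2) i)) j
    rw [nhds_discrete, tendsto_pure] at this
    exact this
  have h3 : ∀ᶠ k in atTop, ∀ i ∈ {i | i < N}, ∀ j ∈ {j | j < N}, P (f k) i j = p i j := by
    rw [eventually_all_finite (Set.finite_lt_nat N)]
    intro i _
    rw [eventually_all_finite (Set.finite_lt_nat N)]
    exact fun j _ => h1 i j
  have h4 : ∀ᶠ k in atTop, ∀ i ∈ {i | i < N}, ∀ j ∈ {j | j < N}, Q (f k) i j = q i j := by
    rw [eventually_all_finite (Set.finite_lt_nat N)]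
    intro i _
    rw [eventually_all_finite (Set.finite_lt_nat N)]
    exact fun j _ => h2 i j
  obtain ⟨k, hk1, hk2, hk3⟩ := (h3.and (h4.and (eventually_ge_atTop N))).exists
  exact ⟨f k, hk3.trans (hf.le_apply), fun i hi j hj => hk1 i hi j hj,
    fun i hi j hj => hk2 i hi j hj⟩

theorem TT_compact (hC : IsClosed C) {x y : Ca} {z : ℕ → ℕ} (h : ∀ n, TT C n x y z) :
    ∃ p : ℕ → Ca, p 0 = x ∧ p (z 0) = y ∧
      ∀ i < z 0, p i = p (i + 1) ∨ ∃ c, (p i, p (i + 1), c) ∈ C := by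
  have h' : ∀ n, ∃ (p : ℕ → Ca) (q : ℕ → ℕ → ℕ), ag (n + 1) (p 0) x ∧ ag (n + 1) (p (z 0)) y ∧
      ∀ i < z 0, (SS C (n + 1) (p i) (p (i + 1)) (q i) ∨ ag (n + 1) (p i) (p (i + 1))) ∧
        ∀ j < n + 1, q i j ≤ z j := by
    intro n
    rcases h (n + 1) with h | h
    · omega
    · exact h
  choose P Q h1 h2 h3 using h'
  obtain ⟨p, q, hpq⟩ := compact_aux (z := z) P
    (fun n i j => if i < z 0 ∧ j < n + 1 then Q n i j else 0) (by
      intro n i j
      split_ifs with hij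
      · exact (h3 n i hij.1).2 j hij.2
      · exact Nat.zero_le _)
  refine ⟨p, ?_, ?_, ?_⟩
  · funext j
    obtain ⟨n, hn, h4, _⟩ := hpq (j + 1)
    rw [← h4 0 (by omega) j (by omega)]
    exact h1 n j (by omega)
  · funext j
    obtain ⟨n, hn, h4, _⟩ := hpq (max (j + 1) (z 0 + 1))
    rw [← h4 (z 0) (by omega) j (by omega)]
    exact h2 n j (by omega)
  · intro i hi
    by_contra hcon
    push Not at hcon
    obtain ⟨hne, hno⟩ := hcon
    obtain ⟨j0, hj0⟩ := Function.ne_iff.1 hne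
    refine hno (q i) (closed_lim hC (M := max (j0 + 1) (z 0 + 1)) fun N hN => ?_)
    obtain ⟨n, hn, h4, h5⟩ := hpq N
    have e1 := h4 i (by omega)
    have e2 := h4 (i + 1) (by omega)
    have e3 := h5 i (by omega)
    have e3' : ag N (Q n i) (q i) := by
      intro j hj
      rw [← e3 j hj]
      beta_reduce
      rw [if_pos ⟨hi, by omega⟩]
    rcases (h3 n i hi).1 with h6 | h6
    · exact (h6.mono (by omega)).congr e1 e2 e3'
    · exfalso
      apply hj0
      rw [← e1 j0 (by omega), ← e2 j0 (by omega)]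
      exact h6 j0 (by omega)

theorem TT_iff (hC : IsClosed C) {Q : Ca → Ca → Prop}
    (hQ : ∀ a b, Q a b ↔ a = b ∨ ∃ c, (a, b, c) ∈ C) (ht : ∀ a b d, Q a b → Q b d → Q a d)
    (x y : Ca) : Q x y ↔ ∃ z : ℕ → ℕ, ∀ n, TT C n x y z := by
  constructor
  · intro h
    rw [hQ] at h
    rcases h with rfl | ⟨c, hc⟩
    · exact ⟨_, fun n => TT_refl n x⟩
    · exact ⟨_, TT_of_mem hc⟩
  · rintro ⟨z, hz⟩
    obtain ⟨p, rfl, rfl, h3⟩ := TT_compact hC hz
    have : ∀ i ≤ z 0, Q (p 0) (p i) := by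
      intro i
      induction i with
      | zero => exact fun _ => (hQ _ _).2 (Or.inl rfl)
      | succ i ih =>
        intro hi
        exact ht _ _ _ (ih (by omega)) ((hQ _ _).2 (h3 i (by omega)))
    exact this _ le_rfl

end Pool.Agent.X223.EE
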