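import Pool.Agent.X223.EE.Ext
import Pool.Agent.X223.EE.Tree

set_option autoImplicit false

namespace Pool.Agent.X223.EE

/-- Vertices: nodes of the tree of finite sequences and witnesses. -/
inductive Vx : Type
  | node (s : List ℕ) : Vx
  | wit (v : List Bool) (s : List ℕ) : Vx

instance : Countable Vx := by
  refine Function.Injective.countable (α := Vx) (β := List ℕ ⊕ (List Bool × List ℕ))
    (f := fun a => match a with
      | .node s => Sum.inl s
      | .wit v s => Sum.inr (v, s)) ?_
  rintro (s | ⟨v, s⟩) (s' | ⟨v', s'⟩) h <;> simp_all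

/-- The sequence coded by a list, the head being the last entry. -/
def sq : List ℕ → ℕ → ℕ
  | [] => fun _ => 0
  | k :: s => Function.update (sq s) s.length k

/-- Translation. -/
def tr (z : ℕ → ℕ) : List ℕ → List ℕ
  | [] => []
  | k :: s => (k + z s.length) :: tr z s

theorem tr_length (z : ℕ → ℕ) : ∀ s : List ℕ, (tr z s).length = s.length
  | [] => rfl
  | k :: s => by
    change (tr z s).length + 1 = s.length + 1
    rw [tr_length z s]

theorem tr_inj (z : ℕ → ℕ) : ∀ s t : List ℕ, tr z s = tr z t → s = t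
  | [], [], _ => rfl
  | [], _ :: _, h => by simp [tr] at h
  | _ :: _, [], h => by simp [tr] at h
  | k :: s, l :: t, h => by
    simp only [tr, List.cons.injEq] at h
    have h1 := tr_inj z s t h.2
    subst h1
    have h2 : k = l := by omega
    rw [h2]

theorem sq_tr (z : ℕ → ℕ) : ∀ s : List ℕ, ag s.length (sq (tr z s)) (fun i => sq s i + z i)
  | [] => fun i hi => absurd hi (by simp)
  | k :: s => by
    intro i hi
    change Function.update (sq (tr z s)) (tr z s).length (k + z s.length) i =
      Function.update (sq s) s.length k i + z i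
    rw [tr_length]
    rcases eq_or_ne i s.length with rfl | hne
    · simp
    · rw [Function.update_of_ne hne, Function.update_of_ne hne]
      refine sq_tr z s i ?_
      simp only [List.length_cons] at hi
      omega

/-- Basic adjacency. -/
def bs : Vx → Vx → Prop
  | .node s, .node t => (∃ k, t = k :: s) ∨ ∃ k r, s = k :: r ∧ t = (k + 1) :: r
  | .node s, .wit _ t => s = t
  | .wit _ _, .node _ => False
  | .wit _ _, .wit _ _ => False

/-- Adjacency of vertices. -/
def AV (a b : Vx) : Prop := bs a b ∨ bs b a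

theorem AV_symm (a b : Vx) (h : AV a b) : AV b a := Or.symm h

theorem bs_irr : ∀ a : Vx, ¬ bs a a
  | .node s => by
    rintro (⟨k, h⟩ | ⟨k, r, h1, h2⟩)
    · have := congrArg List.length h
      simp at this
    · rw [h1] at h2
      simp at h2
  | .wit _ _ => id

theorem AV_irr (a : Vx) : ¬ AV a a := by
  rintro (h | h)
  · exact bs_irr a h
  · exact bs_irr a h

/-- The translation of vertices. -/
def jf (z : ℕ → ℕ) : Vx → Vx
  | .node s => .node (tr z s)
  | .wit v s => .wit v (tr z s)

theorem jf_inj (z : ℕ → ℕ) : Function.Injective (jf z) := by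
  rintro (s | ⟨v, s⟩) (s' | ⟨v', s'⟩) h
  · simp only [jf, Vx.node.injEq] at h
    rw [tr_inj z s s' h]
  · simp [jf] at h
  · simp [jf] at h
  · simp only [jf, Vx.wit.injEq] at h
    rw [tr_inj z s s' h.2, h.1]

/-- The translation as an embedding. -/
def jm (z : ℕ → ℕ) : Vx ↪ Vx := ⟨jf z, jf_inj z⟩

theorem bs_jf (z : ℕ → ℕ) : ∀ a b : Vx, bs (jf z a) (jf z b) ↔ bs a b
  | .node s, .node t => by
    change ((∃ k, tr z t = k :: tr z s) ∨ ∃ k r, tr z s = k :: r ∧ tr z t = (k + 1) :: r) ↔
      ((∃ k, t = k :: s) ∨ ∃ k r, s = k :: r ∧ t = (k + 1) :: r)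
    constructor
    · rintro (⟨k, h⟩ | ⟨k, r, h1, h2⟩)
      · left
        cases t with
        | nil => simp [tr] at h
        | cons l t =>
          simp only [tr, List.cons.injEq] at h
          exact ⟨l, by rw [tr_inj z t s h.2]⟩
      · right
        cases s with
        | nil => simp [tr] at h1
        | cons k1 s =>
          cases t with
          | nil => simp [tr] at h2
          | cons k2 t =>
            simp only [tr, List.cons.injEq] at h1 h2
            have h3 : s = t := tr_inj z s t (h1.2.trans h2.2.symm)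
            subst h3
            refine ⟨k1, s, rfl, ?_⟩
            have : k2 = k1 + 1 := by omega
            rw [this]
    · rintro (⟨k, rfl⟩ | ⟨k, r, rfl, rfl⟩)
      · exact Or.inl ⟨_, rfl⟩
      · refine Or.inr ⟨_, _, rfl, ?_⟩
        simp only [tr, List.cons.injEq, and_true]
        omega
  | .node s, .wit v t => ⟨fun h => tr_inj z s t h, fun h => congrArg (tr z) h⟩
  | .wit _ _, .node _ => Iff.rfl
  | .wit _ _, .wit _ _ => Iff.rfl

theorem AV_jm (z : ℕ → ℕ) (a b : Vx) : AV (jm z a) (jm z b) ↔ AV a b :=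
  or_congr (bs_jf z a b) (bs_jf z b a)

/-- Labels. -/
def lab : Vx → ℕ
  | .node s => Encodable.encode (Sum.inl s.length : ℕ ⊕ List Bool)
  | .wit v _ => Encodable.encode (Sum.inr v : ℕ ⊕ List Bool)

theorem lab_jm (z : ℕ → ℕ) : ∀ a : Vx, lab (jm z a) = lab a
  | .node s => by
    change Encodable.encode (Sum.inl (tr z s).length : ℕ ⊕ List Bool) =
      Encodable.encode (Sum.inl s.length : ℕ ⊕ List Bool)
    rw [tr_length]
  | .wit _ _ => rfl

theorem lab_node : ∀ (a : Vx) (s : List ℕ), lab a = lab (.node s) →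
    ∃ t, a = .node t ∧ t.length = s.length
  | .node t, s, h => ⟨t, rfl, by simpa [lab] using h⟩
  | .wit v t, s, h => by
    simp [lab] at h
    omega

theorem lab_wit : ∀ (a : Vx) (v : List Bool) (s : List ℕ), lab a = lab (.wit v s) →
    ∃ t, a = .wit v t
  | .node t, v, s, h => by
    simp [lab] at h
    omega
  | .wit v' t, v, s, h => ⟨t, by
      have : v' = v := by simpa [lab] using h
      rw [this]⟩

/-- The binary sequence coded by a list. -/
def bq (v : List Bool) (i : ℕ) : Bool := v.getD i false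

/-- The initial segment of a sequence. -/
def pre (x : Ca) (n : ℕ) : List Bool := (List.range n).map x

theorem pre_length (x : Ca) (n : ℕ) : (pre x n).length = n := by simp [pre]

theorem bq_pre (x : Ca) (n : ℕ) : ag n (bq (pre x n)) x := by
  intro i hi
  simp [bq, pre, List.getD_eq_getElem?_getD, hi]

variable (C : Set (Ca × Ca × (ℕ → ℕ)))

/-- The vertices of the structure of `x`. -/
def Vs (x : Ca) : Set Vx := fun a => match a with
  | .node _ => True
  | .wit v s => v.length = s.length ∧ TT C s.length (bq v) x (sq s)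

theorem node_mem (x : Ca) (s : List ℕ) : Vx.node s ∈ Vs C x := trivial

theorem wit_mem (x : Ca) (v : List Bool) (s : List ℕ) :
    Vx.wit v s ∈ Vs C x ↔ v.length = s.length ∧ TT C s.length (bq v) x (sq s) := Iff.rfl

variable {C}

theorem jm_mem {x y : Ca} {z : ℕ → ℕ} (h : ∀ n, TT C n x y z) :
    ∀ a ∈ Vs C x, jm z a ∈ Vs C y := by
  rintro (s | ⟨v, s⟩) ha
  · trivial
  · rw [wit_mem] at ha
    change Vx.wit v (tr z s) ∈ Vs C y
    rw [wit_mem, tr_length]
    exact ⟨ha.1, (ha.2.comp (h s.length)).congr (ag.refl _ _) (ag.refl _ _) (sq_tr z s).symm⟩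

/-- Zero sequences. -/
abbrev zl (n : ℕ) : List ℕ := List.replicate n 0

theorem sq_zl (n : ℕ) : sq (zl n) = fun _ => 0 := by
  induction n with
  | zero => rfl
  | succ n ih =>
    rw [zl, List.replicate_succ]
    funext i
    change Function.update (sq (zl n)) (zl n).length 0 i = 0
    rw [ih]
    rcases eq_or_ne i (zl n).length with h | h
    · rw [h]
      simp
    · rw [Function.update_of_ne h]

theorem wit_zl_mem (x : Ca) (n : ℕ) : Vx.wit (pre x n) (zl n) ∈ Vs C x := by
  rw [wit_mem, pre_length, List.length_replicate, sq_zl]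
  exact ⟨rfl, (TT_refl n x).congr (bq_pre x n).symm (ag.refl _ _) (ag.refl _ _)⟩

theorem wit_zl_ag {x y : Ca} {n : ℕ} (h : Vx.wit (pre x n) (zl n) ∈ Vs C y) : ag n x y := by
  rw [wit_mem, List.length_replicate, sq_zl] at h
  exact (bq_pre x n).symm.trans (TT_zero h.2)

/-- Extraction of the map on vertices. -/
theorem extr {V : Type} {A : V → V → Prop} {lb : V → ℕ} {s t : ℕ → Om V} {W W' : Set V}
    (hs : Function.Injective s) (hr : Set.range s = D W) (hr' : Set.range t = D W')
    (h : ℕ → ℕ) (hE : ∀ m n, adj A (t (h m)) (t (h n)) ↔ adj A (s m) (s n))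
    (hc : ∀ j m, col lb j (t (h m)) = col lb j (s m)) :
    ∃ g : V → V, (∀ m v, s m = Sum.inl v → t (h m) = Sum.inl (g v)) ∧
      (∀ v ∈ W, g v ∈ W' ∧ lb (g v) = lb v) ∧
      ∀ v ∈ W, ∀ v' ∈ W, (A (g v) (g v') ↔ A v v') := by
  have h1 : ∀ v, ∃ m v', v ∈ W → (s m = Sum.inl v ∧ t (h m) = Sum.inl v' ∧ lb v' = lb v) := by
    intro v
    by_cases hv : v ∈ W
    · have h2 : (Sum.inl v : Om V) ∈ D W := hv
      rw [← hr] at h2
      obtain ⟨m, hm⟩ := h2
      obtain ⟨v', h3, h4⟩ := col_inl (lab := lb) (w := t (h m)) (v := v) (fun j => by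
        rw [hc, hm])
      exact ⟨m, v', fun _ => ⟨hm, h3, h4⟩⟩
    · exact ⟨0, v, fun hh => absurd hh hv⟩
  choose m g hg using h1
  have h2 : ∀ m v, s m = Sum.inl v → v ∈ W := by
    intro m v hm
    have : (Sum.inl v : Om V) ∈ D W := by
      rw [← hr]
      exact ⟨m, hm⟩
    exact this
  refine ⟨g, ?_, ?_, ?_⟩
  · intro m' v hm
    obtain ⟨e1, e2, e3⟩ := hg v (h2 m' v hm)
    have : m' = m v := hs (hm.trans e1.symm)
    rw [this]
    exact e2
  · intro v hv
    obtain ⟨e1, e2, e3⟩ := hg v hv
    refine ⟨?_, e3⟩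
    have : (Sum.inl (g v) : Om V) ∈ D W' := by
      rw [← hr']
      exact ⟨_, e2⟩
    exact this
  · intro v hv v' hv'
    obtain ⟨e1, e2, e3⟩ := hg v hv
    obtain ⟨e1', e2', e3'⟩ := hg v' hv'
    rw [← adj_inl (A := A), ← e2, ← e2', hE, e1, e1', adj_inl]

theorem AV_node_len {s t : List ℕ} (h : AV (.node s) (.node t)) (hl : t.length = s.length + 1) :
    ∃ k, t = k :: s := by
  rcases h with (⟨k, h⟩ | ⟨k, r, h1, h2⟩) | (⟨k, h⟩ | ⟨k, r, h1, h2⟩)
  · exact ⟨k, h⟩
  · rw [h1, h2] at hl
    simp at hl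
  · rw [h] at hl
    simp only [List.length_cons] at hl
    omega
  · rw [h1, h2] at hl
    simp at hl

theorem AV_node_wit {s t : List ℕ} {v : List Bool} (h : AV (.node s) (.wit v t)) : s = t := by
  rcases h with h | h
  · exact h
  · exact absurd h id

theorem AV_sib {s : List ℕ} {k l : ℕ} (h : AV (.node (k :: s)) (.node (l :: s))) :
    l = k + 1 ∨ k = l + 1 := by
  rcases h with (⟨m, h⟩ | ⟨m, r, h1, h2⟩) | (⟨m, h⟩ | ⟨m, r, h1, h2⟩)
  · have := congrArg List.length h
    simp at this
  · simp only [List.cons.injEq] at h1 h2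
    left
    omega
  · have := congrArg List.length h
    simp at this
  · simp only [List.cons.injEq] at h1 h2
    right
    omega

theorem AV_child (s : List ℕ) (k : ℕ) : AV (.node s) (.node (k :: s)) := Or.inl (Or.inl ⟨k, rfl⟩)

theorem AV_sib' (s : List ℕ) (k : ℕ) : AV (.node (k :: s)) (.node ((k + 1) :: s)) :=
  Or.inl (Or.inr ⟨k, s, rfl, rfl⟩)

theorem AV_wit (s : List ℕ) (v : List Bool) : AV (.node s) (.wit v s) :=
  Or.inl (show s = s from rfl)

/-- Initial segments of `z` as lists. -/
def il (z : ℕ → ℕ) : ℕ → List ℕ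
  | 0 => []
  | n + 1 => z n :: il z n

theorem il_length (z : ℕ → ℕ) : ∀ n, (il z n).length = n
  | 0 => rfl
  | n + 1 => by
    change (il z n).length + 1 = n + 1
    rw [il_length z n]

theorem sq_il (z : ℕ → ℕ) : ∀ n, ag n (sq (il z n)) z
  | 0 => fun i hi => absurd hi (by simp)
  | n + 1 => by
    intro i hi
    change Function.update (sq (il z n)) (il z n).length (z n) i = z i
    rw [il_length]
    rcases eq_or_ne i n with rfl | hne
    · simp
    · rw [Function.update_of_ne hne]
      exact sq_il z n i (by omega)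

theorem TT_of_map {x y : Ca} {g : Vx → Vx}
    (h1 : ∀ v ∈ Vs C x, g v ∈ Vs C y ∧ lab (g v) = lab v)
    (h2 : ∀ v ∈ Vs C x, ∀ v' ∈ Vs C x, (AV (g v) (g v') ↔ AV v v')) :
    ∃ z : ℕ → ℕ, ∀ n, TT C n x y z := by
  have h3 : ∀ n, ∃ t, g (.node (zl n)) = .node t ∧ t.length = n := by
    intro n
    obtain ⟨t, e1, e2⟩ := lab_node _ _ (h1 _ (node_mem C x (zl n))).2
    rw [List.length_replicate] at e2
    exact ⟨t, e1, e2⟩
  choose t ht1 ht2 using h3
  have h4 : ∀ n, ∃ k, t (n + 1) = k :: t n := by
    intro n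
    apply AV_node_len
    · rw [← ht1, ← ht1, h2 _ (node_mem C x _) _ (node_mem C x _)]
      exact AV_child _ _
    · rw [ht2, ht2]
  choose z hz using h4
  have h5 : ∀ n, t n = il z n := by
    intro n
    induction n with
    | zero => exact List.eq_nil_of_length_eq_zero (ht2 0)
    | succ n ih =>
      rw [hz n, ih]
      rfl
  refine ⟨z, fun n => ?_⟩
  obtain ⟨u, hu⟩ := lab_wit _ _ _ (h1 _ (wit_zl_mem x n)).2
  have h6 : t n = u := by
    apply AV_node_wit (v := pre x n)
    rw [← ht1, ← hu, h2 _ (node_mem C x _) _ (wit_zl_mem x n)]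
    exact AV_wit _ _
  have h7 := (h1 _ (wit_zl_mem x n)).1
  rw [hu, wit_mem, ← h6, h5, il_length] at h7
  exact h7.2.congr (bq_pre x n) (ag.refl _ _) (sq_il z n)

theorem path_id (f : ℕ → ℕ) (hinj : Function.Injective f) (h0 : ∃ k, f k = 0)
    (h : ∀ k, f (k + 1) = f k + 1 ∨ f k = f (k + 1) + 1) : ∀ k, f k = k := by
  have h1 : ∀ k, f (k + 1) = f k + 1 := by
    intro k
    rcases h k with h2 | h2
    · exact h2
    · exfalso
      have h3 : ∀ i, f (k + i) = f (k + (i + 1)) + 1 := by
        intro i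
        induction i with
        | zero => exact h2
        | succ i ih =>
          rcases h (k + (i + 1)) with h4 | h4
          · exfalso
            have h5 : f (k + i) = f (k + (i + 1) + 1) := by rw [h4, ih]
            have := hinj h5
            omega
          · exact h4
      have h4 : ∀ i, f (k + i) + i = f k := by
        intro i
        induction i with
        | zero => rfl
        | succ i ih =>
          rw [← ih, h3 i]
          omega
      have := h4 (f k + 1)
      omega
  have h2 : ∀ k, f k = f 0 + k := by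
    intro k
    induction k with
    | zero => rfl
    | succ k ih =>
      rw [h1, ih]
      omega
  intro k
  obtain ⟨m, hm⟩ := h0
  have := h2 m
  rw [h2 k]
  omega

theorem map_id {W W' : Set Vx} (hW : ∀ s, Vx.node s ∈ W) (hW' : ∀ s, Vx.node s ∈ W')
    {g g' : Vx → Vx}
    (h1 : ∀ v ∈ W, g v ∈ W' ∧ lab (g v) = lab v)
    (h2 : ∀ v ∈ W, ∀ v' ∈ W, (AV (g v) (g v') ↔ AV v v'))
    (h1' : ∀ v ∈ W', g' v ∈ W ∧ lab (g' v) = lab v)
    (h2' : ∀ v ∈ W', ∀ v' ∈ W', (AV (g' v) (g' v') ↔ AV v v'))
    (hgg : ∀ v ∈ W, g' (g v) = v) (hgg' : ∀ v ∈ W', g (g' v) = v) :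
    ∀ v ∈ W, g v = v := by
  have h3 : ∀ s, g (.node s) = .node s := by
    intro s
    induction s with
    | nil =>
      obtain ⟨t, e1, e2⟩ := lab_node _ _ (h1 _ (hW [])).2
      rw [e1, List.eq_nil_of_length_eq_zero e2]
    | cons k s ih =>
      have ih' : g' (.node s) = .node s := by
        have := hgg _ (hW s)
        rw [ih] at this
        exact this
      have h4 : ∀ k, ∃ l, g (.node (k :: s)) = .node (l :: s) := by
        intro k
        obtain ⟨t, e1, e2⟩ := lab_node _ _ (h1 _ (hW (k :: s))).2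
        have : AV (.node s) (.node t) := by
          rw [← e1, ← ih, h2 _ (hW _) _ (hW _)]
          exact AV_child _ _
        obtain ⟨l, hl⟩ := AV_node_len this (by rw [e2]; rfl)
        exact ⟨l, by rw [e1, hl]⟩
      have h4' : ∀ k, ∃ l, g' (.node (k :: s)) = .node (l :: s) := by
        intro k
        obtain ⟨t, e1, e2⟩ := lab_node _ _ (h1' _ (hW' (k :: s))).2
        have : AV (.node s) (.node t) := by
          rw [← e1, ← ih', h2' _ (hW' _) _ (hW' _)]
          exact AV_child _ _
        obtain ⟨l, hl⟩ := AV_node_len this (by rw [e2]; rfl)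
        exact ⟨l, by rw [e1, hl]⟩
      choose f hf using h4
      choose f' hf' using h4'
      have hff : ∀ k, f' (f k) = k := by
        intro k
        have := hgg _ (hW (k :: s))
        rw [hf, hf'] at this
        simpa using this
      have hff' : ∀ k, f (f' k) = k := by
        intro k
        have := hgg' _ (hW' (k :: s))
        rw [hf', hf] at this
        simpa using this
      have h5 := path_id f (Function.LeftInverse.injective hff) ⟨f' 0, hff' 0⟩ (fun k => by
        apply AV_sib (s := s)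
        rw [← hf, ← hf, h2 _ (hW _) _ (hW _)]
        exact AV_sib' _ _)
      rw [hf, h5]
  rintro (s | ⟨v, s⟩) ha
  · exact h3 s
  · obtain ⟨t, ht⟩ := lab_wit _ _ _ (h1 _ ha).2
    have : s = t := by
      apply AV_node_wit (v := v)
      rw [← h3, ← ht, h2 _ (hW _) _ ha]
      exact AV_wit _ _
    rw [ht, this]

/-- Structures of distinct enumerations are distinct. -/
theorem FF_inj {x y : Ca} {s t : ℕ → Om Vx} (hs : Function.Injective s)
    (ht : Function.Injective t) (hr : Set.range s = D (Vs C x)) (hr' : Set.range t = D (Vs C y))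
    (h : FF AV lab s = FF AV lab t) : x = y ∧ s = t := by
  have hE : ∀ m n, adj AV (s m) (s n) ↔ adj AV (t m) (t n) := by
    intro m n
    rw [← FF_EB (A := AV) (lab := lab), h, FF_EB]
  obtain ⟨g, g1, g2, g3⟩ := extr (lb := lab) hs hr hr' id (fun m n => (hE m n).symm)
    (fun j m => (FF_col h m j).symm)
  obtain ⟨g', g1', g2', g3'⟩ := extr (lb := lab) ht hr' hr id (fun m n => hE m n)
    (fun j m => FF_col h m j)
  have e1 : ∀ v ∈ Vs C x, g v = v := by
    refine map_id (node_mem C x) (node_mem C y) g2 g3 g2' g3' ?_ ?_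
    · intro v hv
      have h2 : (Sum.inl v : Om Vx) ∈ D (Vs C x) := hv
      rw [← hr] at h2
      obtain ⟨m, hm⟩ := h2
      have h3 := g1' m _ (g1 m v hm)
      exact Sum.inl_injective (h3.symm.trans hm)
    · intro v hv
      have h2 : (Sum.inl v : Om Vx) ∈ D (Vs C y) := hv
      rw [← hr'] at h2
      obtain ⟨m, hm⟩ := h2
      have h3 := g1 m _ (g1' m v hm)
      exact Sum.inl_injective (h3.symm.trans hm)
  constructor
  · funext i
    refine wit_zl_ag (C := C) (n := i + 1) ?_ i (Nat.lt_succ_self i)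
    have := (g2 _ (wit_zl_mem x (i + 1))).1
    rw [e1 _ (wit_zl_mem x (i + 1))] at this
    exact this
  · refine rigid hr hr' h (fun m v hm => ?_)
    have hv : v ∈ Vs C x := by
      have : (Sum.inl v : Om Vx) ∈ D (Vs C x) := by
        rw [← hr]
        exact ⟨m, hm⟩
      exact this
    have := g1 m v hm
    rw [e1 v hv] at this
    exact this

/-- Embeddings of the structures are the same as the quasi-order. -/
theorem emb_TT {x y : Ca} {s t : ℕ → Om Vx} (hs : Function.Injective s)
    (ht : Function.Injective t) (hr : Set.range s = D (Vs C x))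
    (hr' : Set.range t = D (Vs C y)) :
    Nonempty (@FirstOrder.Language.ElementaryEmbedding (La ar) ℕ ℕ (strOf ar (FF AV lab s))
      (strOf ar (FF AV lab t))) ↔ ∃ z : ℕ → ℕ, ∀ n, TT C n x y z := by
  rw [emb_iff (FF_gen AV_symm AV_irr hs hr) (FF_gen AV_symm AV_irr ht hr')]
  constructor
  · rintro ⟨h, h1, h2, h3⟩
    obtain ⟨g, g1, g2, g3⟩ := extr (A := AV) (lb := lab) hs hr hr' h (fun m n => by
      rw [← FF_EB (A := AV) (lab := lab), h2, FF_EB]) (fun j m => by
      rw [← FF_UB (A := AV) (lab := lab), h3, FF_UB])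
    exact TT_of_map g2 g3
  · rintro ⟨z, hz⟩
    have h1 : ∀ m, ∃ n, t n = J (jm z) (s m) := by
      intro m
      have : J (jm z) (s m) ∈ D (Vs C y) := by
        refine J_D (jm z) (jm_mem hz) ?_
        rw [← hr]
        exact ⟨m, rfl⟩
      rw [← hr'] at this
      exact this
    choose h hh using h1
    refine ⟨h, ?_, ?_, ?_⟩
    · intro m m' hm
      apply hs
      apply J_inj (jm z)
      rw [← hh, ← hh, hm]
    · intro m n
      rw [Bool.eq_iff_iff, FF_EB, FF_EB, hh, hh]
      exact J_adj (jm z) (AV_jm z)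
    · intro j m
      rw [FF_UB, FF_UB, hh]
      exact J_col (jm z) (lab_jm z) j (s m)

end Pool.Agent.X223.EE
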